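import Pool.Agent.H24.RCM.Targets

set_option autoImplicit false

namespace Pool.Agent.H38.RCM

open NumberField Polynomial nonZeroDivisors Pool.Agent.H26.NL Pool.Agent.H24.RCM

theorem IV_le {d : ℕ} [Fact d.Prime] {p k q : ℕ} (S : Sol d p k q) [Fact p.Prime]
    (K : Type) [Field K] [NumberField K] [IsCyclotomicExtension {d} ℚ K] {n n' : ℕ}
    (h : n ≤ n') (v : (ZMod d)ˣ → ℕ) : IV S K n' v ≤ IV S K n v := by
  have h1 : IV S K n' v = IV S K n v * IV S K (n' - n) v := by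
    unfold IV
    rw [← Finset.prod_mul_distrib]
    refine Finset.prod_congr rfl fun t _ => ?_
    rw [← pow_add, ← add_mul, Nat.add_sub_cancel' h]
  rw [h1]
  exact Ideal.mul_le_left

theorem sm_ng {d : ℕ} [Fact d.Prime] (v : (ZMod d)ˣ → ℕ) : sm (ng v) = sm v := by
  unfold sm ng
  exact Fintype.sum_equiv (Equiv.neg (ZMod d)ˣ) _ _ fun t => rfl

theorem sm_add {d : ℕ} [Fact d.Prime] (v w : (ZMod d)ˣ → ℕ) : sm (v + w) = sm v + sm w := by
  unfold sm
  simp only [Pi.add_apply]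
  exact Finset.sum_add_distrib

theorem sm_smul {d : ℕ} [Fact d.Prime] (n : ℕ) (v : (ZMod d)ˣ → ℕ) :
    sm (n • v) = n * sm v := by
  unfold sm
  simp only [Pi.smul_apply, smul_eq_mul]
  exact (Finset.mul_sum _ _ _).symm

theorem pf_INE (h0 : T_PVU) (h1 : T_PVS) (h2 : T_IVS) (h3 : T_PRV) : T_INE := by
  intro d _ K _ _ _ p k q κ m r e _ S D hk hκ hodd hcop hrd v w hC hdl
  obtain ⟨g, X, Y, u, hP, hX, ⟨η, hY⟩, hg⟩ := h3 d K p k q κ m r S hk hκ hcop v w hC
  have hev := hP.even hκ D hrd S.hd2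
  set n := m * (κ - 1) with hn
  have hnk : n ≤ k := by
    rw [hn, hk, mul_comm κ m]
    exact Nat.mul_le_mul_left _ (Nat.sub_le _ _)
  have htw : tw (-1 : (ZMod d)ˣ) w = ng w := by
    funext t
    show w (t * -1) = w (-t)
    rw [mul_neg_one]
  obtain ⟨a1, c1, m1, s1⟩ := h2 d K p k q S w (-1) n
  obtain ⟨a2, c2, -, s2⟩ := h2 d K p k q S (ng w) (-1) n
  have sk1 := (h2 d K p k q S w (-1) k).2.2.2
  have sk2 := (h2 d K p k q S (ng w) (-1) k).2.2.2
  have hPw : PV d K q w ∈ IV S K n w := by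
    apply IV_le S K hnk w
    rw [sk1]
    exact Ideal.mem_span_singleton_self _
  have hPnw : PV d K q (ng w) ∈ IV S K n (ng w) := by
    apply IV_le S K hnk (ng w)
    rw [sk2]
    exact Ideal.mem_span_singleton_self _
  have hXI : X ∈ IV S K n w * IV S K n (ng w) := by
    rw [hX]
    exact Ideal.mul_mem_mul hg hPnw
  have hYI : Y ∈ IV S K n w * IV S K n (ng w) := by
    have h4 := m1 g hg
    rw [htw] at h4
    have h5 : PV d K q w * sg (-1 : (ZMod d)ˣ) g ∈ IV S K n w * IV S K n (ng w) :=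
      Ideal.mul_mem_mul hPw h4
    have h6 : Y = η * (PV d K q w * sg (-1 : (ZMod d)ˣ) g) := by
      rw [hY]
      ring
    rw [h6]
    exact Ideal.mul_mem_left _ _ h5
  have hne : X - Y ≠ 0 := by
    intro h
    have hXY : X = Y := sub_eq_zero.mp h
    have e1 : u * PV d K q (v + (κ - 1) • w + κ • ng w) =
        u * PV d K q (ng v + (κ - 1) • ng w + κ • w) := by
      rw [← hP.hX, ← hP.hY, hXY]
    have e2 := hP.hu.mul_left_cancel e1
    have e3 := h0 d K p k q S _ _ e2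
    apply hdl
    intro t
    have e4 := congrFun e3 t
    simp only [Pi.add_apply, Pi.smul_apply, smul_eq_mul, ng] at e4
    unfold dl
    obtain ⟨κ', rfl⟩ : ∃ κ', κ = κ' + 1 := ⟨κ - 1, by omega⟩
    rw [Nat.add_sub_cancel] at e4
    zify at e4
    linarith
  have hin := hP.ineq' hκ hodd D hev hXI hYI (c1.mul_right c2) hne
  have hab : Ideal.absNorm (IV S K n w * IV S K n (ng w)) =
      p ^ (n * sm w + n * sm w) := by
    rw [map_mul, a1, a2, sm_ng, ← pow_add]
  rw [hab] at hin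
  -- the norm of `X`
  have hnX : nm X = p ^ (m * (sm v + (2 * κ - 1) * sm w)) := by
    have e1 : nm X ^ κ = (p ^ (m * (sm v + (2 * κ - 1) * sm w))) ^ κ := by
      rw [← nm_pow, hP.hX, nm_mul, nm_unit hP.hu, one_mul,
        (h1 d K p k q S (v + (κ - 1) • w + κ • ng w) w 1).2.2.2.1, sm_add, sm_add, sm_smul,
        sm_smul, sm_ng, ← pow_mul, hk]
      congr 1
      obtain ⟨κ', rfl⟩ : ∃ κ', κ = κ' + 1 := ⟨κ - 1, by omega⟩
      have e2 : 2 * (κ' + 1) - 1 = 2 * κ' + 1 := by omega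
      rw [Nat.add_sub_cancel, e2]
      ring
    exact Nat.pow_left_injective (by omega) e1
  rw [hnX] at hin
  have hexp : m * (sm v + (2 * κ - 1) * sm w) = m * (sm v + sm w) + (n * sm w + n * sm w) := by
    obtain ⟨κ', rfl⟩ : ∃ κ', κ = κ' + 1 := ⟨κ - 1, by omega⟩
    have e2 : 2 * (κ' + 1) - 1 = 2 * κ' + 1 := by omega
    rw [hn, Nat.add_sub_cancel, e2]
    ring
  rw [hexp, pow_add p (m * (sm v + sm w)), ← mul_assoc (2 ^ (d - 1))] at hin
  exact Nat.le_of_mul_le_mul_right hin (pow_pos S.hp.pos _)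

end Pool.Agent.H38.RCM
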