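import Pool.Agent.H24.RCM.Targets

set_option autoImplicit false

namespace Pool.Agent.H38.RCM

open NumberField Polynomial nonZeroDivisors Pool.Agent.H26.NL Pool.Agent.H24.RCM

theorem phi_zero {d : ℕ} [Fact d.Prime] {K : Type} [Field K] [NumberField K]
    [IsCyclotomicExtension {d} ℚ K] {p k q : ℕ} [Fact p.Prime] (S : Sol d p k q)
    (v : (ZMod d)ˣ → ℕ) (t : (ZMod d)ˣ) :
    S.phi (sg t (PV d K q v)) = 0 ↔ v t ≠ 0 := by
  unfold PV
  rw [map_prod, map_prod, Finset.prod_eq_zero_iff]
  constructor
  · rintro ⟨i, -, hi⟩
    rw [map_pow, map_pow] at hi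
    have hne : v i ≠ 0 := by
      intro h0
      rw [h0, pow_zero] at hi
      exact one_ne_zero hi
    have h1 := (pow_eq_zero_iff hne).mp hi
    have h2 := (S.phi_Pi t i).mp h1
    rw [h2]
    exact hne
  · intro h
    refine ⟨t, Finset.mem_univ t, ?_⟩
    rw [map_pow, map_pow, (S.phi_Pi t t).mpr rfl]
    exact zero_pow h

theorem PV_step {d : ℕ} [Fact d.Prime] {K : Type} [Field K] [NumberField K]
    [IsCyclotomicExtension {d} ℚ K] (q : ℕ) (v : (ZMod d)ˣ → ℕ) (t : (ZMod d)ˣ)
    (h : v t ≠ 0) :
    PV d K q v = PV d K q (Function.update v t (v t - 1)) * Pi d K q t := by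
  classical
  unfold PV
  rw [← Finset.mul_prod_erase Finset.univ _ (Finset.mem_univ t),
    ← Finset.mul_prod_erase Finset.univ (fun s => Pi d K q s ^ Function.update v t (v t - 1) s)
      (Finset.mem_univ t)]
  have h1 : ∏ x ∈ Finset.univ.erase t, Pi d K q x ^ Function.update v t (v t - 1) x =
      ∏ x ∈ Finset.univ.erase t, Pi d K q x ^ v x := by
    refine Finset.prod_congr rfl fun x hx => ?_
    rw [Function.update_of_ne (Finset.ne_of_mem_erase hx)]
  rw [h1, Function.update_self]
  have h2 : Pi d K q t ^ v t = Pi d K q t ^ (v t - 1) * Pi d K q t := by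
    rw [← pow_succ, Nat.sub_add_cancel (Nat.one_le_iff_ne_zero.mpr h)]
  rw [h2]
  ring

theorem pf_PVU : T_PVU := by
  classical
  intro d _ K _ _ _ p k q _ S
  have key : ∀ n : ℕ, ∀ v w : (ZMod d)ˣ → ℕ, ∑ t, v t = n →
      PV d K q v = PV d K q w → v = w := by
    intro n
    induction n with
    | zero =>
      intro v w hv h
      have hv0 : ∀ t, v t = 0 := fun t => by
        have := (Finset.sum_eq_zero_iff.mp hv) t (Finset.mem_univ t)
        exact this
      funext t
      rw [hv0 t]
      by_contra hne
      have h1 := (phi_zero (K := K) S w t).mpr (Ne.symm hne)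
      rw [← h] at h1
      exact (phi_zero S v t).mp h1 (hv0 t)
    | succ n ih =>
      intro v w hv h
      obtain ⟨t, ht⟩ : ∃ t, v t ≠ 0 := by
        by_contra hc
        push Not at hc
        have : ∑ t, v t = 0 := Finset.sum_eq_zero fun t _ => hc t
        omega
      have hw : w t ≠ 0 := by
        have h1 := (phi_zero (K := K) S v t).mpr ht
        rw [h] at h1
        exact (phi_zero S w t).mp h1
      have h1 := PV_step (K := K) q v t ht
      have h2 := PV_step (K := K) q w t hw
      rw [h1, h2] at h
      have h3 := mul_right_cancel₀ (S.Pi_ne t) h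
      have h4 := ih (Function.update v t (v t - 1)) (Function.update w t (w t - 1)) (by
        have e1 := Finset.sum_update_of_mem (Finset.mem_univ t) v (v t - 1)
        have e2 := Finset.add_sum_erase Finset.univ v (Finset.mem_univ t)
        rw [e1, Finset.sdiff_singleton_eq_erase]
        omega) h3
      funext s
      have h5 := congrFun h4 s
      by_cases hs : s = t
      · subst hs
        rw [Function.update_self, Function.update_self] at h5
        omega
      · rwa [Function.update_of_ne hs, Function.update_of_ne hs] at h5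
  intro v w h
  exact key _ v w rfl h

end Pool.Agent.H38.RCM
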